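import Mathlib
set_option autoImplicit false

/-! Minkowski's inequality for series, an interpolation inequality. -/

namespace Pool.Agent.TH335.RF

open MeasureTheory Set Filter
open scoped ENNReal Topology

theorem mink_fin {α : Type*} [MeasurableSpace α] (μ : Measure α) (p : ℝ) (hp : 1 ≤ p)
    (u : ℕ → α → ℝ≥0∞) (hu : ∀ j, Measurable (u j)) (n : ℕ) :
    (∫⁻ a, (∑ j ∈ Finset.range n, u j a) ^ p ∂μ) ^ (1 / p) ≤
      ∑ j ∈ Finset.range n, (∫⁻ a, (u j a) ^ p ∂μ) ^ (1 / p) := by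
  have hp0 : 0 < p := by linarith
  induction n with
  | zero =>
    simp [ENNReal.zero_rpow_of_pos hp0, hp0]
  | succ n ih =>
    rw [Finset.sum_range_succ]
    have h := ENNReal.lintegral_Lp_add_le (μ := μ) (p := p)
      (f := fun a => ∑ j ∈ Finset.range n, u j a) (g := u n)
      (Finset.measurable_fun_sum _ fun j _ => hu j).aemeasurable (hu n).aemeasurable hp
    simp only [Pi.add_apply] at h
    simp only [Finset.sum_range_succ]
    exact h.trans (add_le_add_left ih _)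

theorem mink {α : Type*} [MeasurableSpace α] (μ : Measure α) (p : ℝ) (hp : 1 ≤ p)
    (u : ℕ → α → ℝ≥0∞) (hu : ∀ j, Measurable (u j)) :
    ∫⁻ a, (∑' j, u j a) ^ p ∂μ ≤ (∑' j, (∫⁻ a, (u j a) ^ p ∂μ) ^ (1 / p)) ^ p := by
  have hp0 : 0 < p := by linarith
  have e1 : ∀ a, (∑' j, u j a) ^ p = ⨆ n : ℕ, (∑ j ∈ Finset.range n, u j a) ^ p := by
    intro a
    rw [ENNReal.tsum_eq_iSup_nat]
    exact (ENNReal.orderIsoRpow p hp0).map_iSup _
  have hmono : Monotone fun (n : ℕ) (a : α) => (∑ j ∈ Finset.range n, u j a) ^ p := by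
    intro m n hmn a
    apply ENNReal.rpow_le_rpow _ hp0.le
    exact Finset.sum_le_sum_of_subset (Finset.range_mono hmn)
  simp only [e1]
  rw [lintegral_iSup (fun n => (Finset.measurable_fun_sum _ fun j _ => hu j).pow_const p) hmono]
  apply iSup_le
  intro n
  have h1 := mink_fin μ p hp u hu n
  have h2 : ∑ j ∈ Finset.range n, (∫⁻ a, (u j a) ^ p ∂μ) ^ (1 / p) ≤
      ∑' j, (∫⁻ a, (u j a) ^ p ∂μ) ^ (1 / p) := ENNReal.sum_le_tsum _
  have h3 := ENNReal.rpow_le_rpow (h1.trans h2) hp0.le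
  rw [← ENNReal.rpow_mul, one_div_mul_cancel hp0.ne', ENNReal.rpow_one] at h3
  exact h3

/-- interpolation between weighted `L^2` and `L^P` -/
theorem interp {m : Type*} [MeasurableSpace m] (ν : Measure m) [SFinite ν]
    (G : ℝ → m → ℝ≥0∞) (hG : Measurable (Function.uncurry G)) (a δ P q t β : ℝ) (ht0 : 0 < t)
    (ht1 : t < 1) (hq : q = 2 * (1 - t) + P * t) (hβ : β = a * (1 - t) + δ * t) (hP : 0 ≤ P) :
    ∫⁻ r in Ioi (1 : ℝ), ENNReal.ofReal (r ^ (-β)) * ∫⁻ y, G r y ^ q ∂ν ≤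
      (∫⁻ r in Ioi (1 : ℝ), ENNReal.ofReal (r ^ (-a)) * ∫⁻ y, G r y ^ (2 : ℝ) ∂ν) ^ (1 - t) *
      (∫⁻ r in Ioi (1 : ℝ), ENNReal.ofReal (r ^ (-δ)) * ∫⁻ y, G r y ^ P ∂ν) ^ t := by
  have key : ∀ (s b : ℝ), Measurable (fun z : ℝ × m => ENNReal.ofReal (z.1 ^ (-b)) *
      Function.uncurry G z ^ s) := fun s b => by
    refine Measurable.mul ?_ (hG.pow_const s)
    fun_prop
  have key2 : ∀ (s b : ℝ), ∫⁻ r in Ioi (1 : ℝ), ENNReal.ofReal (r ^ (-b)) * ∫⁻ y, G r y ^ s ∂ν =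
      ∫⁻ z, ENNReal.ofReal (z.1 ^ (-b)) * Function.uncurry G z ^ s
        ∂((volume.restrict (Ioi (1 : ℝ))).prod ν) := by
    intro s b
    rw [lintegral_prod _ (key s b).aemeasurable]
    refine lintegral_congr fun r => ?_
    rw [← lintegral_const_mul']
    · rfl
    · exact ENNReal.ofReal_ne_top
  rw [key2, key2, key2]
  refine le_trans (le_of_eq ?_) (ENNReal.lintegral_mul_norm_pow_le (key 2 a).aemeasurable
    (key P δ).aemeasurable (by linarith : (0 : ℝ) ≤ 1 - t) ht0.le (by ring))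
  have h1 : ∀ᵐ z ∂((volume.restrict (Ioi (1 : ℝ))).prod ν), (1 : ℝ) < z.1 := by
    apply Measure.quasiMeasurePreserving_fst.ae
    exact ae_restrict_mem measurableSet_Ioi
  refine lintegral_congr_ae ?_
  filter_upwards [h1] with z hz
  have hz0 : 0 < z.1 := by linarith
  rw [ENNReal.mul_rpow_of_nonneg _ _ (by linarith), ENNReal.mul_rpow_of_nonneg _ _ ht0.le,
    ENNReal.ofReal_rpow_of_nonneg (by positivity) (by linarith),
    ENNReal.ofReal_rpow_of_nonneg (by positivity) ht0.le, ← Real.rpow_mul hz0.le,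
    ← Real.rpow_mul hz0.le, ← ENNReal.rpow_mul, ← ENNReal.rpow_mul]
  have e1 : ENNReal.ofReal (z.1 ^ (-β)) = ENNReal.ofReal (z.1 ^ (-a * (1 - t))) *
      ENNReal.ofReal (z.1 ^ (-δ * t)) := by
    rw [← ENNReal.ofReal_mul (by positivity), ← Real.rpow_add hz0]
    congr 2
    rw [hβ]; ring
  have e2 : Function.uncurry G z ^ q = Function.uncurry G z ^ (2 * (1 - t)) *
      Function.uncurry G z ^ (P * t) := by
    rw [← ENNReal.rpow_add_of_nonneg _ _ (by nlinarith) (by positivity), hq]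
  rw [e1, e2]
  ring

end Pool.Agent.TH335.RF
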