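import Mathlib
import Pool.Agent.H72.Lib.S8.H789R2.FR.Defs
import Pool.Agent.H72.Lib.S8.Helper390.CovarioA
set_option autoImplicit false

/-! Rough in few coordinates: the Fourier integral over the unit ball. -/

namespace Pool.Agent.TH335.RF

open MeasureTheory Set Complex
open scoped ENNReal RealInnerProductSpace FourierTransform
open Pool.Agent.H789R2.FR (E sg T)

/-- Fourier integral over the unit ball -/
noncomputable def FB {d : ℕ} (A : E d → ℂ) (y : E d) : ℂ :=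
  ∫ y' in Metric.ball (0 : E d) 1, A y' * Complex.exp (-((⟪y', y⟫ : ℝ) : ℂ) * I)

theorem ball_fin {d : ℕ} : volume (Metric.ball (0 : E d) 1) ≠ ⊤ := measure_ball_lt_top.ne

theorem enorm_e {V : Type*} [NormedAddCommGroup V] [InnerProductSpace ℝ V] (x z : V) :
    ‖Complex.exp (-((⟪x, z⟫ : ℝ) : ℂ) * I)‖ₑ = 1 := by
  have h2 : -((⟪x, z⟫ : ℝ) : ℂ) * I = ((-⟪x, z⟫ : ℝ) : ℂ) * I := by push_cast; ring
  rw [h2, ← ofReal_norm, Complex.norm_exp_ofReal_mul_I, ENNReal.ofReal_one]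

theorem FB_eq {d : ℕ} (A : E d → ℂ) (y : E d) :
    FB A y = 𝓕 ((Metric.ball (0 : E d) 1).indicator A) ((2 * Real.pi)⁻¹ • y) := by
  unfold FB
  rw [Real.fourier_eq', ← integral_indicator Metric.isOpen_ball.measurableSet]
  refine integral_congr_ae (Filter.Eventually.of_forall fun z => ?_)
  have e1 : -2 * Real.pi * ⟪z, (2 * Real.pi)⁻¹ • y⟫ = -⟪z, y⟫ := by
    rw [inner_smul_right]
    have := Real.pi_ne_zero
    field_simp
  simp only
  rw [e1]
  by_cases hz : z ∈ Metric.ball (0 : E d) 1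
  · rw [indicator_of_mem hz, indicator_of_mem hz, smul_eq_mul, mul_comm]
    push_cast
    rfl
  · rw [indicator_of_notMem hz, indicator_of_notMem hz, smul_zero]

theorem FB_sup {d : ℕ} (A : E d → ℂ) (hA : Measurable A) (y : E d) :
    ‖FB A y‖ₑ ^ (2 : ℝ) ≤ volume (Metric.ball (0 : E d) 1) *
      ∫⁻ z in Metric.ball (0 : E d) 1, ‖A z‖ₑ ^ (2 : ℝ) := by
  have h1 : ‖FB A y‖ₑ ≤ ∫⁻ z in Metric.ball (0 : E d) 1, ‖A z‖ₑ := by
    unfold FB
    refine (enorm_integral_le_lintegral_enorm _).trans (le_of_eq ?_)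
    refine lintegral_congr fun z => ?_
    rw [enorm_mul, enorm_e, mul_one]
  have h2 := ENNReal.lintegral_mul_le_Lp_mul_Lq (volume.restrict (Metric.ball (0 : E d) 1))
    Real.HolderConjugate.two_two (f := fun z => ‖A z‖ₑ) (g := fun _ => (1 : ℝ≥0∞))
    hA.enorm.aemeasurable aemeasurable_const
  simp only [Pi.mul_apply, mul_one, ENNReal.one_rpow, lintegral_one, Measure.restrict_apply,
    MeasurableSet.univ, univ_inter] at h2
  calc ‖FB A y‖ₑ ^ (2 : ℝ) ≤ ((∫⁻ z in Metric.ball (0 : E d) 1, ‖A z‖ₑ ^ (2 : ℝ)) ^ (1 / (2 : ℝ)) *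
        volume (Metric.ball (0 : E d) 1) ^ (1 / (2 : ℝ))) ^ (2 : ℝ) :=
        ENNReal.rpow_le_rpow (h1.trans h2) (by norm_num)
    _ = _ := by
        rw [ENNReal.mul_rpow_of_nonneg _ _ (by norm_num), ← ENNReal.rpow_mul, ← ENNReal.rpow_mul]
        norm_num
        rw [mul_comm]

theorem FB_L2 {d : ℕ} (A : E d → ℂ) (hA : Measurable A)
    (hfin : ∫⁻ z in Metric.ball (0 : E d) 1, ‖A z‖ₑ ^ (2 : ℝ) ≠ ⊤) :
    ∫⁻ y, ‖FB A y‖ₑ ^ (2 : ℝ) = ENNReal.ofReal ((2 * Real.pi) ^ d) *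
      ∫⁻ z in Metric.ball (0 : E d) 1, ‖A z‖ₑ ^ (2 : ℝ) := by
  set B := Metric.ball (0 : E d) 1 with hB
  have hBm : MeasurableSet B := Metric.isOpen_ball.measurableSet
  set f : E d → ℂ := B.indicator A with hf
  have hfm : Measurable f := hA.indicator hBm
  have hf2 : ∫⁻ z, ‖f z‖ₑ ^ (2 : ℝ) = ∫⁻ z in B, ‖A z‖ₑ ^ (2 : ℝ) := by
    rw [← lintegral_indicator hBm]
    refine lintegral_congr fun z => ?_
    by_cases hz : z ∈ B
    · rw [hf, indicator_of_mem hz, indicator_of_mem hz]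
    · rw [hf, indicator_of_notMem hz, indicator_of_notMem hz]
      simp
  have hL2 : MemLp f 2 := by
    refine ⟨hfm.aestronglyMeasurable, ?_⟩
    rw [eLpNorm_lt_top_iff_lintegral_rpow_enorm_lt_top (by norm_num) (by norm_num)]
    simp only [ENNReal.toReal_ofNat]
    rw [hf2]
    exact hfin.lt_top
  have hL2' : MemLp A 2 (volume.restrict B) := (memLp_indicator_iff_restrict hBm).1 hL2
  have : IsFiniteMeasure (volume.restrict B) := ⟨by simpa using measure_ball_lt_top⟩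
  have hL1' : MemLp A 1 (volume.restrict B) := hL2'.mono_exponent (by norm_num)
  have hL1 : Integrable f := memLp_one_iff_integrable.1 ((memLp_indicator_iff_restrict hBm).2 hL1')
  obtain ⟨hF2, hFn⟩ := Pool.Agent.Helper390.Covario.plancherel hL1 hL2
  have hFi : Integrable fun ξ => ‖𝓕 f ξ‖ ^ 2 := (memLp_two_iff_integrable_sq_norm hF2.1).1 hF2
  have hfi : Integrable fun ξ => ‖f ξ‖ ^ 2 := (memLp_two_iff_integrable_sq_norm hL2.1).1 hL2
  have hpi : (0 : ℝ) < 2 * Real.pi := by positivity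
  set g : E d → ℝ := fun y => ‖𝓕 f ((2 * Real.pi)⁻¹ • y)‖ ^ 2 with hg
  have hgi : Integrable g := hFi.comp_smul (R := (2 * Real.pi)⁻¹) (inv_ne_zero hpi.ne')
  have hgint : ∫ y, g y = (2 * Real.pi) ^ d * ∫ z, ‖f z‖ ^ 2 := by
    have h1 := Measure.integral_comp_smul (volume : Measure (E d)) (fun ξ => ‖𝓕 f ξ‖ ^ 2)
      (2 * Real.pi)⁻¹
    rw [finrank_euclideanSpace_fin, hFn] at h1
    simp only [hg]
    rw [h1, smul_eq_mul, inv_pow, inv_inv, abs_of_pos (by positivity)]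
  have e1 : ∀ w : ℂ, ‖w‖ₑ ^ (2 : ℝ) = ENNReal.ofReal (‖w‖ ^ 2) := by
    intro w
    rw [← ofReal_norm, ENNReal.ofReal_rpow_of_nonneg (norm_nonneg _) (by norm_num)]
    norm_num
  calc ∫⁻ y, ‖FB A y‖ₑ ^ (2 : ℝ) = ∫⁻ y, ENNReal.ofReal (g y) := by
        refine lintegral_congr fun y => ?_
        rw [e1, FB_eq]
    _ = ENNReal.ofReal ((2 * Real.pi) ^ d * ∫ z, ‖f z‖ ^ 2) := by
        rw [← ofReal_integral_eq_lintegral_ofReal hgi
          (Filter.Eventually.of_forall fun y => by positivity), hgint]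
    _ = _ := by
        rw [ENNReal.ofReal_mul (by positivity), ofReal_integral_eq_lintegral_ofReal hfi
          (Filter.Eventually.of_forall fun y => by positivity), ← hf2]
        simp only [e1]

/-- the profile bound -/
theorem FB_Lp (d : ℕ) (p : ℝ) (hp : 2 ≤ p) : ∃ C : ℝ, 0 < C ∧ ∀ A : E d → ℂ, Measurable A →
    ∫⁻ y, ‖FB A y‖ₑ ^ p ≤ (ENNReal.ofReal C *
      ∫⁻ z in Metric.ball (0 : E d) 1, ‖A z‖ₑ ^ (2 : ℝ)) ^ (p / 2) := by
  set vB := volume.real (Metric.ball (0 : E d) 1) with hvB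
  have hvpos : 0 < vB := by
    rw [hvB, measureReal_def]
    exact ENNReal.toReal_pos (Metric.measure_ball_pos volume 0 one_pos).ne' ball_fin
  set C := max vB ((2 * Real.pi) ^ d) with hC
  have hC0 : 0 < C := lt_max_of_lt_left hvpos
  refine ⟨C, hC0, fun A hA => ?_⟩
  set S := ∫⁻ z in Metric.ball (0 : E d) 1, ‖A z‖ₑ ^ (2 : ℝ) with hS
  by_cases hfin : S = ⊤
  · rw [hfin, ENNReal.mul_top (by simpa using hC0), ENNReal.top_rpow_of_pos (by linarith)]
    exact le_top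
  have hv : volume (Metric.ball (0 : E d) 1) ≤ ENNReal.ofReal C := by
    rw [← ENNReal.ofReal_toReal (ball_fin (d := d))]
    exact ENNReal.ofReal_le_ofReal (le_max_left _ _)
  have h1 : ∀ y, ‖FB A y‖ₑ ^ (2 : ℝ) ≤ ENNReal.ofReal C * S := fun y =>
    (FB_sup A hA y).trans (by gcongr)
  have h2 : ∫⁻ y, ‖FB A y‖ₑ ^ (2 : ℝ) ≤ ENNReal.ofReal C * S := by
    rw [FB_L2 A hA hfin]
    gcongr
    exact le_max_right _ _
  have hcs : ENNReal.ofReal C * S ≠ ⊤ := ENNReal.mul_ne_top ENNReal.ofReal_ne_top hfin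
  calc ∫⁻ y, ‖FB A y‖ₑ ^ p ≤ ∫⁻ y, (ENNReal.ofReal C * S) ^ ((p - 2) / 2) * ‖FB A y‖ₑ ^ (2 : ℝ) := by
        apply lintegral_mono
        intro y
        have h3 : ‖FB A y‖ₑ ^ p = (‖FB A y‖ₑ ^ (2 : ℝ)) ^ ((p - 2) / 2) * ‖FB A y‖ₑ ^ (2 : ℝ) := by
          rw [← ENNReal.rpow_mul, ← ENNReal.rpow_add_of_nonneg _ _ (by linarith) (by norm_num)]
          congr 1
          ring
        simp only
        rw [h3]
        gcongr
        exact h1 y
    _ = (ENNReal.ofReal C * S) ^ ((p - 2) / 2) * ∫⁻ y, ‖FB A y‖ₑ ^ (2 : ℝ) := by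
        rw [lintegral_const_mul']
        exact ENNReal.rpow_ne_top_of_nonneg (by linarith) hcs
    _ ≤ (ENNReal.ofReal C * S) ^ ((p - 2) / 2) * (ENNReal.ofReal C * S) ^ (1 : ℝ) := by
        rw [ENNReal.rpow_one]
        gcongr
    _ = _ := by
        rw [← ENNReal.rpow_add_of_nonneg _ _ (by linarith) (by norm_num)]
        congr 1
        ring

end Pool.Agent.TH335.RF
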