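import Mathlib
import Pool.Agent.H72.Lib.S8.H438R2.BR.T1
import Pool.Agent.H72.Lib.S8.H438R2.BR.Meas
import Pool.Agent.H72.Lib.S8.H438R2.RZ.K2
set_option autoImplicit false

/-! Asymptotics of the Fourier transform of the sphere. -/

namespace Pool.Agent.TH335.RF

open MeasureTheory Set Complex
open scoped ENNReal RealInnerProductSpace
open Pool.Agent.H438R2.BR (Phi L)

/-- the main term of `Phi k t`, without the power of `t` -/
noncomputable def mt (c : ℂ) (t : ℝ) : ℂ :=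
  c * Complex.exp ((t : ℂ) * I) + (starRingEnd ℂ) c * Complex.exp (-((t : ℂ) * I))

theorem norm_mt (c : ℂ) (t : ℝ) : ‖mt c t‖ ≤ 2 * ‖c‖ := by
  unfold mt
  refine (norm_add_le _ _).trans ?_
  rw [norm_mul, norm_mul, Complex.norm_exp_ofReal_mul_I, RCLike.norm_conj,
    show -((t : ℂ) * I) = ((-t : ℝ) : ℂ) * I by push_cast; ring, Complex.norm_exp_ofReal_mul_I]
  linarith

theorem phi_asym (k : ℕ) (hk : 2 ≤ k) : ∃ (c : ℂ) (C : ℝ), 0 < C ∧ ∀ t : ℝ, 0 < t →
    ‖Phi k t - ((t ^ (-((k : ℝ) - 1) / 2) : ℝ) : ℂ) * mt c t‖ ≤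
      C * (t ^ (-((k : ℝ) - 1) / 2) / (1 + t)) := by
  have hk' : (2 : ℝ) ≤ k := by exact_mod_cast hk
  obtain ⟨c0, c1, C0, hC0, h⟩ := Pool.Agent.H438R2.RZ.L_asym k hk
  set C : ℝ := 2 * (Real.pi + 2 * ‖c0‖) + 4 * (C0 + ‖c1‖) with hC
  have hCpos : 0 < C := by positivity
  refine ⟨-I * c0, C, hCpos, fun t ht => ?_⟩
  set s : ℝ := -((k : ℝ) - 1) / 2 with hs
  have hts : 0 < t ^ s := Real.rpow_pos_of_pos ht _
  have hnorm : ‖-I * c0‖ = ‖c0‖ := by rw [norm_mul, norm_neg, Complex.norm_I, one_mul]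
  rcases le_or_gt 1 t with h1 | h1
  · -- large t
    have hL := h t h1
    have hL2 : ‖L k t - ((t ^ s : ℝ) : ℂ) * c0‖ ≤ (C0 + ‖c1‖) * (t ^ s / t) := by
      have e1 : L k t - ((t ^ s : ℝ) : ℂ) * c0 =
          ((t ^ s : ℝ) : ℂ) * (((t ^ (((k : ℝ) - 1) / 2) : ℝ) : ℂ) * L k t - c0) := by
        have e2 : t ^ s * t ^ (((k : ℝ) - 1) / 2) = 1 := by
          rw [← Real.rpow_add ht, hs]
          rw [show -((k : ℝ) - 1) / 2 + ((k : ℝ) - 1) / 2 = 0 by ring, Real.rpow_zero]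
        have e3 : ((t ^ s : ℝ) : ℂ) * ((t ^ (((k : ℝ) - 1) / 2) : ℝ) : ℂ) = 1 := by
          exact_mod_cast e2
        linear_combination (-(L k t)) * e3
      have e4 : ‖((t ^ (((k : ℝ) - 1) / 2) : ℝ) : ℂ) * L k t - c0‖ ≤ (C0 + ‖c1‖) / t := by
        have e5 : ((t ^ (((k : ℝ) - 1) / 2) : ℝ) : ℂ) * L k t - c0 =
            (((t ^ (((k : ℝ) - 1) / 2) : ℝ) : ℂ) * L k t - c0 - c1 / (t : ℂ)) + c1 / (t : ℂ) := by
          ring
        rw [e5]
        refine (norm_add_le _ _).trans ?_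
        have e6 : ‖c1 / (t : ℂ)‖ = ‖c1‖ / t := by
          rw [norm_div, Complex.norm_real, Real.norm_of_nonneg ht.le]
        rw [e6, add_div]
        have e7 : C0 / t ^ 2 ≤ C0 / t := by
          apply div_le_div_of_nonneg_left hC0.le ht
          nlinarith
        linarith
      rw [e1, norm_mul, Complex.norm_real, Real.norm_of_nonneg hts.le]
      calc t ^ s * ‖((t ^ (((k : ℝ) - 1) / 2) : ℝ) : ℂ) * L k t - c0‖
          ≤ t ^ s * ((C0 + ‖c1‖) / t) := mul_le_mul_of_nonneg_left e4 hts.le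
        _ = _ := by ring
    have hphi := Pool.Agent.H438R2.BR.phi_laplace k hk t ht
    have hdiff : Phi k t - ((t ^ s : ℝ) : ℂ) * mt (-I * c0) t =
        (-I) * Complex.exp ((t : ℂ) * I) * (L k t - ((t ^ s : ℝ) : ℂ) * c0) +
        I * Complex.exp (-((t : ℂ) * I)) * (starRingEnd ℂ) (L k t - ((t ^ s : ℝ) : ℂ) * c0) := by
      rw [hphi]
      unfold mt
      simp only [map_mul, map_neg, map_sub, Complex.conj_I, Complex.conj_ofReal]
      ring
    rw [hdiff]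
    refine (norm_add_le _ _).trans ?_
    have hn1 : ‖Complex.exp ((t : ℂ) * I)‖ = 1 := Complex.norm_exp_ofReal_mul_I t
    have hn2 : ‖Complex.exp (-((t : ℂ) * I))‖ = 1 := by
      rw [show -((t : ℂ) * I) = ((-t : ℝ) : ℂ) * I by push_cast; ring,
        Complex.norm_exp_ofReal_mul_I]
    simp only [norm_mul, norm_neg, Complex.norm_I, hn1, hn2, RCLike.norm_conj, one_mul]
    have h5 : t ^ s / t ≤ 2 * (t ^ s / (1 + t)) := by
      rw [← mul_div_assoc, div_le_div_iff₀ ht (by linarith)]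
      nlinarith
    have h6 : 0 ≤ t ^ s / (1 + t) := by positivity
    have h7 : 0 ≤ C0 + ‖c1‖ := by positivity
    calc ‖L k t - ((t ^ s : ℝ) : ℂ) * c0‖ + ‖L k t - ((t ^ s : ℝ) : ℂ) * c0‖
        ≤ 2 * ((C0 + ‖c1‖) * (t ^ s / t)) := by linarith
      _ ≤ 2 * ((C0 + ‖c1‖) * (2 * (t ^ s / (1 + t)))) := by gcongr
      _ ≤ C * (t ^ s / (1 + t)) := by
          rw [hC]
          have : 0 ≤ 2 * (Real.pi + 2 * ‖c0‖) * (t ^ s / (1 + t)) := by positivity
          nlinarith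
  · -- small t
    have hP : ‖Phi k t‖ ≤ Real.pi := Pool.Agent.H438R2.BR.Phi_le k hk t
    have h2 : 1 ≤ t ^ s := by
      rw [hs]
      exact Real.one_le_rpow_of_pos_of_le_one_of_nonpos ht h1.le (by linarith)
    have h3 : ‖Phi k t - ((t ^ s : ℝ) : ℂ) * mt (-I * c0) t‖ ≤
        (Real.pi + 2 * ‖c0‖) * t ^ s := by
      refine (norm_sub_le _ _).trans ?_
      rw [norm_mul, Complex.norm_real, Real.norm_of_nonneg hts.le]
      have := norm_mt (-I * c0) t
      rw [hnorm] at this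
      nlinarith [Real.pi_pos, norm_nonneg c0]
    have h4 : t ^ s ≤ 2 * (t ^ s / (1 + t)) := by
      rw [← mul_div_assoc, le_div_iff₀ (by linarith)]
      nlinarith
    have h6 : 0 ≤ t ^ s / (1 + t) := by positivity
    calc ‖Phi k t - ((t ^ s : ℝ) : ℂ) * mt (-I * c0) t‖ ≤ (Real.pi + 2 * ‖c0‖) * t ^ s := h3
      _ ≤ (Real.pi + 2 * ‖c0‖) * (2 * (t ^ s / (1 + t))) := by
          gcongr
      _ ≤ C * (t ^ s / (1 + t)) := by
          rw [hC]
          have : 0 ≤ 4 * (C0 + ‖c1‖) * (t ^ s / (1 + t)) := by positivity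
          nlinarith

end Pool.Agent.TH335.RF
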