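import Mathlib
import Pool.Agent.H72.Lib.S8.H438R2.BR.T7
import Pool.Agent.H72.Lib.S8.H438R2.BR.T10
set_option autoImplicit false

/-! Integrals over the ball. -/

namespace Pool.Agent.TH335.RF

open MeasureTheory Set Complex
open scoped ENNReal RealInnerProductSpace
open Pool.Agent.H789R2.FR (E sg)
open Pool.Agent.H438R2.BR (Q)

theorem ball_w {m : ℕ} (hm : 1 ≤ m) (φ : ℝ → ℝ≥0∞) (hφ : Measurable φ) :
    ∫⁻ y in Metric.ball (0 : E m) 1, ENNReal.ofReal ((1 - ‖y‖ ^ 2) ^ (-(1 / 2) : ℝ)) *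
      φ (Real.sqrt (1 - ‖y‖ ^ 2)) ≤ sg m univ * ∫⁻ θ in Q, φ (Real.sin θ) := by
  set f : ℝ → ℝ≥0∞ := (Iio (1 : ℝ)).indicator fun s =>
    ENNReal.ofReal ((1 - s ^ 2) ^ (-(1 / 2) : ℝ)) * φ (Real.sqrt (1 - s ^ 2)) with hf
  have hfm : Measurable f := by
    refine Measurable.indicator ?_ measurableSet_Iio
    refine Measurable.mul (by fun_prop) (hφ.comp ?_)
    exact (Measurable.sqrt (by fun_prop))
  have h1 : ∫⁻ y in Metric.ball (0 : E m) 1, ENNReal.ofReal ((1 - ‖y‖ ^ 2) ^ (-(1 / 2) : ℝ)) *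
      φ (Real.sqrt (1 - ‖y‖ ^ 2)) = ∫⁻ y : E m, f ‖y‖ := by
    rw [← lintegral_indicator Metric.isOpen_ball.measurableSet]
    refine lintegral_congr fun y => ?_
    by_cases hy : ‖y‖ < 1
    · have m1 : y ∈ Metric.ball (0 : E m) 1 := by simpa using hy
      have m2 : ‖y‖ ∈ Iio (1 : ℝ) := hy
      rw [hf, indicator_of_mem m1, indicator_of_mem m2]
    · have m1 : y ∉ Metric.ball (0 : E m) 1 := by simpa using hy
      have m2 : ‖y‖ ∉ Iio (1 : ℝ) := hy
      rw [hf, indicator_of_notMem m1, indicator_of_notMem m2]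
  rw [h1, Pool.Agent.H438R2.BR.T7.radial (by omega) f hfm]
  refine mul_le_mul_right ?_ _
  have h2 : ∫⁻ r in Ioi (0 : ℝ), ENNReal.ofReal (r ^ (m - 1)) * f r =
      ∫⁻ s in Ioo (0 : ℝ) 1, ENNReal.ofReal ((1 - s ^ 2) ^ ((((1 : ℕ) : ℝ) - 2) / 2)) *
        (ENNReal.ofReal (s ^ (m - 1)) * φ (Real.sqrt (1 - s ^ 2))) := by
    rw [← lintegral_indicator measurableSet_Ioi, ← lintegral_indicator measurableSet_Ioo]
    refine lintegral_congr fun s => ?_
    by_cases h0 : 0 < s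
    · have m0 : s ∈ Ioi (0 : ℝ) := h0
      rw [indicator_of_mem m0]
      by_cases h1 : s < 1
      · have m1 : s ∈ Ioo (0 : ℝ) 1 := ⟨h0, h1⟩
        have m2 : s ∈ Iio (1 : ℝ) := h1
        rw [hf, indicator_of_mem m1, indicator_of_mem m2,
          show (((1 : ℕ) : ℝ) - 2) / 2 = -(1 / 2) by norm_num]
        ring
      · have m1 : s ∉ Ioo (0 : ℝ) 1 := fun h => h1 h.2
        have m2 : s ∉ Iio (1 : ℝ) := h1
        rw [hf, indicator_of_notMem m1, indicator_of_notMem m2, mul_zero]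
    · have m0 : s ∉ Ioi (0 : ℝ) := h0
      have m1 : s ∉ Ioo (0 : ℝ) 1 := fun h => h0 h.1
      rw [indicator_of_notMem m0, indicator_of_notMem m1]
  rw [h2, Pool.Agent.H438R2.BR.T10.half 1 le_rfl]
  refine setLIntegral_mono' (by unfold Q; exact measurableSet_Ioo) fun θ hθ => ?_
  have hc := Pool.Agent.H438R2.BR.T7.cos_pos_Q hθ
  have hs := Pool.Agent.H438R2.BR.T7.sin_pos_Q hθ
  have e1 : Real.sqrt (1 - Real.cos θ ^ 2) = Real.sin θ := by
    rw [← Real.sin_sq, Real.sqrt_sq hs.le]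
  rw [e1, Nat.sub_self, pow_zero, ENNReal.ofReal_one, one_mul]
  calc ENNReal.ofReal (Real.cos θ ^ (m - 1)) * φ (Real.sin θ) ≤ 1 * φ (Real.sin θ) := by
        gcongr
        rw [ENNReal.ofReal_le_one]
        exact pow_le_one₀ hc.le (Real.cos_le_one θ)
    _ = _ := one_mul _

theorem int1 {m : ℕ} (hm : 1 ≤ m) : ∃ C : ℝ, 0 < C ∧
    ∫⁻ y in Metric.ball (0 : E m) 1, ENNReal.ofReal ((1 - ‖y‖ ^ 2) ^ (-(1 / 2) : ℝ)) ≤
      ENNReal.ofReal C := by
  have hs := Pool.Agent.H438R2.BR.T7.sg_pos (n := m) (by omega)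
  refine ⟨(sg m).real univ * (Real.pi / 2), by positivity, ?_⟩
  have h := ball_w hm (fun _ => 1) measurable_const
  simp only [mul_one] at h
  refine h.trans (le_of_eq ?_)
  rw [setLIntegral_one]
  unfold Q
  rw [Real.volume_Ioo, sub_zero, ENNReal.ofReal_mul hs.le, ofReal_measureReal]

theorem int2 {m : ℕ} (hm : 1 ≤ m) : ∃ C : ℝ, 0 < C ∧ ∀ r : ℝ, 0 < r →
    ∫⁻ y in Metric.ball (0 : E m) 1, ENNReal.ofReal ((1 - ‖y‖ ^ 2) ^ (-(1 / 2) : ℝ)) *
      ENNReal.ofReal ((1 + (r * Real.sqrt (1 - ‖y‖ ^ 2)) ^ 2)⁻¹) ≤ ENNReal.ofReal (C / r) := by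
  have hs := Pool.Agent.H438R2.BR.T7.sg_pos (n := m) (by omega)
  refine ⟨(sg m).real univ * (Real.pi * (Real.pi / 2)), by positivity, fun r hr => ?_⟩
  refine (ball_w hm (fun s => ENNReal.ofReal ((1 + (r * s) ^ 2)⁻¹)) (by fun_prop)).trans ?_
  have hpi := Real.pi_pos
  set c : ℝ := r * (2 / Real.pi) with hc
  have hc0 : 0 < c := by positivity
  have h1 : ∫⁻ θ in Q, ENNReal.ofReal ((1 + (r * Real.sin θ) ^ 2)⁻¹) ≤
      ∫⁻ θ : ℝ, ENNReal.ofReal ((1 + (c * θ) ^ 2)⁻¹) := by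
    refine le_trans ?_ (setLIntegral_le_lintegral Q _)
    refine setLIntegral_mono' (by unfold Q; exact measurableSet_Ioo) fun θ hθ => ?_
    apply ENNReal.ofReal_le_ofReal
    have h2 : 2 / Real.pi * θ ≤ Real.sin θ := Real.mul_le_sin hθ.1.le hθ.2.le
    have h3 : 0 ≤ θ := hθ.1.le
    have h4 : c * θ ≤ r * Real.sin θ := by
      rw [hc, mul_assoc]
      exact mul_le_mul_of_nonneg_left h2 hr.le
    have h5 : 0 ≤ c * θ := by positivity
    have h6 : (c * θ) ^ 2 ≤ (r * Real.sin θ) ^ 2 := pow_le_pow_left₀ h5 h4 2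
    apply inv_anti₀ (by positivity)
    linarith
  have h2 : ∫⁻ θ : ℝ, ENNReal.ofReal ((1 + (c * θ) ^ 2)⁻¹) = ENNReal.ofReal (Real.pi / c) := by
    have i1 : Integrable fun θ : ℝ => (1 + (c * θ) ^ 2)⁻¹ :=
      integrable_inv_one_add_sq.comp_mul_left' hc0.ne'
    rw [← ofReal_integral_eq_lintegral_ofReal i1 (Filter.Eventually.of_forall fun θ => by positivity)]
    have h3 := Measure.integral_comp_mul_left (fun x : ℝ => (1 + x ^ 2)⁻¹) c
    rw [h3, integral_univ_inv_one_add_sq, abs_of_pos (by positivity), smul_eq_mul]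
    congr 1
    field_simp
  calc sg m univ * ∫⁻ θ in Q, ENNReal.ofReal ((1 + (r * Real.sin θ) ^ 2)⁻¹)
      ≤ sg m univ * ENNReal.ofReal (Real.pi / c) := by
        gcongr
        exact h1.trans (le_of_eq h2)
    _ = _ := by
        have : IsFiniteMeasure (sg m) := Pool.Agent.H789R2.FR.sg_finite m
        rw [← ofReal_measureReal, ← ENNReal.ofReal_mul hs.le]
        congr 1
        rw [hc]
        field_simp

end Pool.Agent.TH335.RF
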