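import Mathlib
import Pool.Agent.H72.Lib.S8.TH335.RF.P1
import Pool.Agent.H72.Lib.S8.TH335.RF.P2
import Pool.Agent.H72.Lib.S8.TH335.RF.P3
set_option autoImplicit false

/-! The main amplitude. -/

namespace Pool.Agent.TH335.RF

open MeasureTheory Set Complex
open scoped ENNReal RealInnerProductSpace
open Pool.Agent.H789R2.FR (E sg T)
open Pool.Agent.H438R2.BR (Phi)

/-- the height over the point `y` of the ball -/
noncomputable def wt {m : ℕ} (y : E m) : ℝ := Real.sqrt (1 - ‖y‖ ^ 2)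

/-- the main amplitude -/
noncomputable def MA {m : ℕ} (k : ℕ) (F : E m → ℂ) (r : ℝ) (y : E m) : ℂ :=
  ((wt y ^ (((k : ℝ) - 3) / 2) : ℝ) : ℂ) * Complex.exp (((-(r * wt y) : ℝ) : ℂ) * I) * F y

/-- the main term -/
noncomputable def Gf {m : ℕ} (k : ℕ) (F : E m → ℂ) (r : ℝ) (y : E m) : ℂ := FB (MA k F r) y

variable {m : ℕ}

theorem wt_meas : Measurable (wt : E m → ℝ) := by
  unfold wt
  exact Measurable.sqrt (by fun_prop)

theorem wt_nonneg (y : E m) : 0 ≤ wt y := Real.sqrt_nonneg _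

theorem wt_pos {y : E m} (hy : y ∈ Metric.ball (0 : E m) 1) : 0 < wt y := by
  unfold wt
  apply Real.sqrt_pos.2
  have : ‖y‖ < 1 := by simpa using hy
  nlinarith [norm_nonneg y]

theorem wt_le_one (y : E m) : wt y ≤ 1 := by
  unfold wt
  rw [Real.sqrt_le_one]
  nlinarith [sq_nonneg ‖y‖]

theorem MA_meas (k : ℕ) (F : E m → ℂ) (hF : Measurable F) (r : ℝ) : Measurable (MA k F r) := by
  unfold MA
  have := wt_meas (m := m)
  fun_prop

theorem MA_meas2 (k : ℕ) (F : E m → ℂ) (hF : Measurable F) :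
    Measurable fun p : ℝ × E m => MA k F p.1 p.2 := by
  unfold MA
  have := wt_meas (m := m)
  have h2 : Measurable fun p : ℝ × E m => wt p.2 := this.comp measurable_snd
  have h3 : Measurable fun p : ℝ × E m => F p.2 := hF.comp measurable_snd
  fun_prop

theorem norm_MA (k : ℕ) (F : E m → ℂ) (r : ℝ) (y : E m) :
    ‖MA k F r y‖ = wt y ^ (((k : ℝ) - 3) / 2) * ‖F y‖ := by
  unfold MA
  rw [norm_mul, norm_mul, Complex.norm_exp_ofReal_mul_I, mul_one, Complex.norm_real,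
    Real.norm_of_nonneg (Real.rpow_nonneg (wt_nonneg y) _)]

theorem pow_wt (k : ℕ) (hk : 2 ≤ k) {y : E m} (hy : y ∈ Metric.ball (0 : E m) 1) :
    wt y ^ ((k : ℝ) - 3) ≤ (1 - ‖y‖ ^ 2) ^ (-(1 / 2) : ℝ) := by
  have h1 := wt_pos hy
  have h2 : (1 - ‖y‖ ^ 2) ^ (-(1 / 2) : ℝ) = wt y ^ (-1 : ℝ) := by
    unfold wt
    have : ‖y‖ < 1 := by simpa using hy
    rw [Real.sqrt_eq_rpow, ← Real.rpow_mul (by nlinarith [norm_nonneg y])]
    norm_num
  rw [h2]
  apply Real.rpow_le_rpow_of_exponent_ge h1 (wt_le_one y)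
  have : (2 : ℝ) ≤ k := by exact_mod_cast hk
  linarith

theorem enorm_sq (w : ℂ) : ‖w‖ₑ ^ (2 : ℝ) = ENNReal.ofReal (‖w‖ ^ 2) := by
  rw [← ofReal_norm, ENNReal.ofReal_rpow_of_nonneg (norm_nonneg _) (by norm_num)]
  norm_num

/-- `L^2` size of the main amplitude -/
theorem MA_L2 (k : ℕ) (hk : 2 ≤ k) (hm : 1 ≤ m) : ∃ C : ℝ, 0 < C ∧ ∀ (F : E m → ℂ),
    (∀ y, ‖F y‖ ≤ 1) → ∀ r : ℝ,
    ∫⁻ y in Metric.ball (0 : E m) 1, ‖MA k F r y‖ₑ ^ (2 : ℝ) ≤ ENNReal.ofReal C := by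
  obtain ⟨C, hC, h⟩ := int1 hm
  refine ⟨C, hC, fun F hF r => le_trans ?_ h⟩
  refine setLIntegral_mono' measurableSet_ball fun y hy => ?_
  rw [enorm_sq, norm_MA]
  apply ENNReal.ofReal_le_ofReal
  have h1 := wt_pos hy
  have h3 : (wt y ^ (((k : ℝ) - 3) / 2)) ^ 2 = wt y ^ ((k : ℝ) - 3) := by
    rw [← Real.rpow_natCast, ← Real.rpow_mul h1.le]
    congr 1
    push_cast
    ring
  calc (wt y ^ (((k : ℝ) - 3) / 2) * ‖F y‖) ^ 2 = wt y ^ ((k : ℝ) - 3) * ‖F y‖ ^ 2 := by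
        rw [mul_pow, h3]
    _ ≤ wt y ^ ((k : ℝ) - 3) * 1 := by
        have h4 : ‖F y‖ ^ 2 ≤ 1 := pow_le_one₀ (norm_nonneg _) (hF y)
        exact mul_le_mul_of_nonneg_left h4 (Real.rpow_nonneg h1.le _)
    _ ≤ _ := by
        rw [mul_one]
        exact pow_wt k hk hy

theorem MA_int (k : ℕ) (hk : 2 ≤ k) (hm : 1 ≤ m) (F : E m → ℂ) (hFm : Measurable F)
    (hF : ∀ y, ‖F y‖ ≤ 1) (r : ℝ) (y : E m) :
    IntegrableOn (fun y' => MA k F r y' * Complex.exp (-((⟪y', y⟫ : ℝ) : ℂ) * I))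
      (Metric.ball (0 : E m) 1) := by
  obtain ⟨C, hC, h⟩ := MA_L2 (m := m) k hk hm
  have hfin : IsFiniteMeasure (volume.restrict (Metric.ball (0 : E m) 1)) :=
    ⟨by simpa using measure_ball_lt_top⟩
  have h1 : MemLp (MA k F r) 2 (volume.restrict (Metric.ball (0 : E m) 1)) := by
    refine ⟨(MA_meas k F hFm r).aestronglyMeasurable, ?_⟩
    rw [eLpNorm_lt_top_iff_lintegral_rpow_enorm_lt_top (by norm_num) (by norm_num)]
    simp only [ENNReal.toReal_ofNat]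
    exact (h F hF r).trans_lt ENNReal.ofReal_lt_top
  have h2 : Integrable (MA k F r) (volume.restrict (Metric.ball (0 : E m) 1)) :=
    memLp_one_iff_integrable.1 (h1.mono_exponent (by norm_num))
  refine h2.mul_bdd (c := 1) ?_ ?_
  · have : Measurable fun y' : E m => Complex.exp (-((⟪y', y⟫ : ℝ) : ℂ) * I) := by fun_prop
    exact this.aestronglyMeasurable
  · refine Filter.Eventually.of_forall fun y' => ?_
    rw [show -((⟪y', y⟫ : ℝ) : ℂ) * I = ((-⟪y', y⟫ : ℝ) : ℂ) * I by push_cast; ring,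
      Complex.norm_exp_ofReal_mul_I]

theorem Gf_meas (k : ℕ) (F : E m → ℂ) (hF : Measurable F) :
    Measurable (Function.uncurry (Gf k F)) := by
  unfold Gf FB
  have h := MA_meas2 k F hF
  have hpair : Measurable fun p : (ℝ × E m) × E m => ((p.1.1, p.2) : ℝ × E m) :=
    (measurable_fst.comp measurable_fst).prodMk measurable_snd
  have h3 : Measurable fun p : (ℝ × E m) × E m => MA k F p.1.1 p.2 := by
    have h5 := Measurable.comp h hpair
    exact h5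
  have h4 : Measurable fun p : (ℝ × E m) × E m =>
      Complex.exp (-((⟪p.2, p.1.2⟫ : ℝ) : ℂ) * I) := by
    have h6 : Measurable fun p : (ℝ × E m) × E m => (⟪p.2, p.1.2⟫ : ℝ) :=
      measurable_snd.inner (measurable_snd.comp measurable_fst)
    exact Complex.measurable_exp.comp ((Complex.measurable_ofReal.comp h6).neg.mul_const I)
  have h2 : Measurable fun p : (ℝ × E m) × E m =>
      MA k F p.1.1 p.2 * Complex.exp (-((⟪p.2, p.1.2⟫ : ℝ) : ℂ) * I) := h3.mul h4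
  exact (h2.stronglyMeasurable.integral_prod_right'
    (ν := volume.restrict (Metric.ball (0 : E m) 1))).measurable

/-- `L^2` bound for the main term -/
theorem Gf_L2 (k : ℕ) (hk : 2 ≤ k) (hm : 1 ≤ m) : ∃ C : ℝ, 0 < C ∧ ∀ (F : E m → ℂ),
    Measurable F → (∀ y, ‖F y‖ ≤ 1) → ∀ r : ℝ,
    ∫⁻ y, ‖Gf k F r y‖ₑ ^ (2 : ℝ) ≤ ENNReal.ofReal C := by
  obtain ⟨C1, hC1, h1⟩ := FB_Lp m 2 le_rfl
  obtain ⟨C2, hC2, h2⟩ := MA_L2 (m := m) k hk hm
  refine ⟨C1 * C2, by positivity, fun F hFm hF r => ?_⟩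
  have h := h1 (MA k F r) (MA_meas k F hFm r)
  rw [div_self (by norm_num : (2 : ℝ) ≠ 0), ENNReal.rpow_one] at h
  refine h.trans ?_
  rw [ENNReal.ofReal_mul hC1.le]
  gcongr
  exact h2 F hF r

end Pool.Agent.TH335.RF
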