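import Mathlib
import Pool.Agent.H72.Lib.S8.TH335.RF.P5
import Pool.Agent.H72.Lib.S8.H438R2.PD.A8
import Pool.Agent.H72.Lib.S8.H438R2.PD.Core
set_option autoImplicit false

/-! Representation of the Fourier transform. -/

namespace Pool.Agent.TH335.RF

open MeasureTheory Set Complex
open scoped ENNReal RealInnerProductSpace
open Pool.Agent.H789R2.FR (E sg T)
open Pool.Agent.H438R2.BR (Phi J)
open Pool.Agent.H438R2.PD (P1 P2 P2_meas ten hh)

variable {m : ℕ}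

/-- the whole amplitude -/
noncomputable def AA (k : ℕ) (F : E m → ℂ) (r : ℝ) (y : E m) : ℂ :=
  ((sg (k - 1)).real univ : ℂ) * ((wt y ^ (k - 2) : ℝ) : ℂ) * Phi k (r * wt y) * F y

theorem rep (k : ℕ) (hk : 2 ≤ k) (hm : 1 ≤ m) (F : E m → ℂ) (hFm : Measurable F)
    (hF : ∀ y, ‖F y‖ ≤ 1) (x : E k) (y : E m) :
    T (fun z : E (k + m) => F (P2 k m z)) (J x y) = FB (AA k F ‖x‖) y := by
  have h := Pool.Agent.H438R2.PD.repr k m hk hm (fun _ _ => (1 : ℂ)) F 1 1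
    (fun _ => measurable_const) hFm (fun _ _ => by simp) hF x y
  have hten : ∀ v : E k, ten (fun (_ : Fin k) (_ : ℝ) => (1 : ℂ)) v = 1 := by
    intro v
    unfold ten
    simp
  simp only [hten, one_mul] at h
  unfold T FB
  rw [h]
  refine setIntegral_congr_fun measurableSet_ball fun y' hy' => ?_
  have hw := wt_pos hy'
  have h1 : 1 - ‖y'‖ ^ 2 = (wt y') ^ 2 := by
    unfold wt
    have : ‖y'‖ < 1 := by simpa using hy'
    rw [Real.sq_sqrt (by nlinarith [norm_nonneg y'])]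
  rw [h1, Pool.Agent.H438R2.PD.A8.hh_cos hk _ x hw]
  unfold Pool.Agent.H438R2.PD.A8.IA AA
  simp only [hten, one_mul]
  have h2 : ∫ u, Complex.exp (-((⟪wt y' • u, x⟫ : ℝ) : ℂ) * I) ∂(sg k) =
      ((sg (k - 1)).real univ : ℂ) * Phi k (‖x‖ * wt y') := by
    have h3 := Pool.Agent.H438R2.BR.sphere_ft k hk (wt y' • x)
    rw [norm_smul, Real.norm_of_nonneg hw.le, mul_comm (wt y') ‖x‖] at h3
    rw [← h3]
    refine integral_congr_ae (Filter.Eventually.of_forall fun u => ?_)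
    simp only
    rw [real_inner_smul_left, real_inner_smul_left, real_inner_comm]
  rw [h2]
  ring

/-- the error amplitude -/
noncomputable def EA (k : ℕ) (c : ℂ) (F : E m → ℂ) (r : ℝ) (y : E m) : ℂ :=
  ((sg (k - 1)).real univ : ℂ) * ((wt y ^ (k - 2) : ℝ) : ℂ) *
    (Phi k (r * wt y) - (((r * wt y) ^ (-((k : ℝ) - 1) / 2) : ℝ) : ℂ) * mt c (r * wt y)) * F y

theorem Phi_meas (k : ℕ) : Measurable (Phi k) := Pool.Agent.H438R2.BR.Phi_meas k

theorem AA_meas (k : ℕ) (F : E m → ℂ) (hF : Measurable F) (r : ℝ) : Measurable (AA k F r) := by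
  unfold AA
  have h1 := wt_meas (m := m)
  have h2 : Measurable fun y : E m => Phi k (r * wt y) := (Phi_meas k).comp (h1.const_mul r)
  fun_prop

theorem EA_meas (k : ℕ) (c : ℂ) (F : E m → ℂ) (hF : Measurable F) (r : ℝ) :
    Measurable (EA k c F r) := by
  unfold EA mt
  have h1 := wt_meas (m := m)
  have h2 : Measurable fun y : E m => Phi k (r * wt y) := (Phi_meas k).comp (h1.const_mul r)
  fun_prop

theorem AA_le (k : ℕ) (hk : 2 ≤ k) (F : E m → ℂ) (hF : ∀ y, ‖F y‖ ≤ 1) (r : ℝ) (y : E m) :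
    ‖AA k F r y‖ ≤ (sg (k - 1)).real univ * Real.pi := by
  unfold AA
  have h1 := Pool.Agent.H438R2.BR.Phi_le k hk (r * wt y)
  have h2 : wt y ^ (k - 2) ≤ 1 := pow_le_one₀ (wt_nonneg y) (wt_le_one y)
  have h3 : 0 ≤ wt y ^ (k - 2) := pow_nonneg (wt_nonneg y) _
  have h4 : 0 ≤ (sg (k - 1)).real univ := measureReal_nonneg
  rw [norm_mul, norm_mul, norm_mul, Complex.norm_real, Complex.norm_real,
    Real.norm_of_nonneg h4, Real.norm_of_nonneg h3]
  calc (sg (k - 1)).real univ * wt y ^ (k - 2) * ‖Phi k (r * wt y)‖ * ‖F y‖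
      ≤ (sg (k - 1)).real univ * 1 * Real.pi * 1 := by
        gcongr
        exact hF y
    _ = _ := by ring

/-- `L^2` size of the error amplitude -/
theorem EA_L2 (k : ℕ) (hk : 2 ≤ k) (hm : 1 ≤ m) : ∃ (c : ℂ) (C : ℝ), 0 < C ∧ ∀ (F : E m → ℂ),
    (∀ y, ‖F y‖ ≤ 1) → ∀ r : ℝ, 0 < r →
    ∫⁻ y in Metric.ball (0 : E m) 1, ‖EA k c F r y‖ₑ ^ (2 : ℝ) ≤
      ENNReal.ofReal (C * r ^ (-(k : ℝ))) := by
  obtain ⟨c, C1, hC1, h1⟩ := phi_asym k hk
  obtain ⟨C2, hC2, h2⟩ := int2 hm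
  set σ : ℝ := (sg (k - 1)).real univ with hσ
  have hσ0 : 0 < σ := Pool.Agent.H438R2.BR.T7.sg_pos (by omega)
  refine ⟨c, (σ * C1) ^ 2 * C2, by positivity, fun F hF r hr => ?_⟩
  have hk' : (2 : ℝ) ≤ k := by exact_mod_cast hk
  have hpt : ∀ y ∈ Metric.ball (0 : E m) 1, ‖EA k c F r y‖ₑ ^ (2 : ℝ) ≤
      ENNReal.ofReal ((σ * C1) ^ 2 * r ^ (1 - (k : ℝ))) *
      (ENNReal.ofReal ((1 - ‖y‖ ^ 2) ^ (-(1 / 2) : ℝ)) *
      ENNReal.ofReal ((1 + (r * Real.sqrt (1 - ‖y‖ ^ 2)) ^ 2)⁻¹)) := by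
    intro y hy
    have hw := wt_pos hy
    have hrw : 0 < r * wt y := by positivity
    have hE : ‖EA k c F r y‖ ≤ σ * wt y ^ (k - 2) *
        (C1 * ((r * wt y) ^ (-((k : ℝ) - 1) / 2) / (1 + r * wt y))) := by
      unfold EA
      rw [norm_mul, norm_mul, norm_mul, Complex.norm_real, Complex.norm_real,
        Real.norm_of_nonneg (by positivity), Real.norm_of_nonneg (by positivity)]
      have h3 := h1 (r * wt y) hrw
      have h4 := hF y
      calc σ * wt y ^ (k - 2) * ‖Phi k (r * wt y) -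
            (((r * wt y) ^ (-((k : ℝ) - 1) / 2) : ℝ) : ℂ) * mt c (r * wt y)‖ * ‖F y‖
          ≤ σ * wt y ^ (k - 2) * (C1 * ((r * wt y) ^ (-((k : ℝ) - 1) / 2) / (1 + r * wt y))) * 1 := by
            gcongr
        _ = _ := mul_one _
    have hsq : ‖EA k c F r y‖ ^ 2 ≤ (σ * C1) ^ 2 * r ^ (1 - (k : ℝ)) *
        ((1 - ‖y‖ ^ 2) ^ (-(1 / 2) : ℝ) * (1 + (r * wt y) ^ 2)⁻¹) := by
      have h5 : ‖EA k c F r y‖ ^ 2 ≤ (σ * wt y ^ (k - 2) *
        (C1 * ((r * wt y) ^ (-((k : ℝ) - 1) / 2) / (1 + r * wt y)))) ^ 2 :=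
        pow_le_pow_left₀ (norm_nonneg _) hE 2
      refine h5.trans ?_
      have e1 : ((r * wt y) ^ (-((k : ℝ) - 1) / 2)) ^ 2 = r ^ (1 - (k : ℝ)) * wt y ^ (1 - (k : ℝ)) := by
        rw [← Real.rpow_natCast, ← Real.rpow_mul hrw.le, ← Real.mul_rpow hr.le hw.le]
        congr 1
        push_cast
        ring
      have e2 : (wt y ^ (k - 2)) ^ 2 * wt y ^ (1 - (k : ℝ)) = wt y ^ ((k : ℝ) - 3) := by
        rw [← pow_mul, ← Real.rpow_natCast (wt y), ← Real.rpow_add hw]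
        congr 1
        push_cast [Nat.cast_sub hk]
        ring
      have e3 : ((1 + r * wt y) ^ 2)⁻¹ ≤ (1 + (r * wt y) ^ 2)⁻¹ := by
        apply inv_anti₀ (by positivity)
        nlinarith
      calc (σ * wt y ^ (k - 2) *
            (C1 * ((r * wt y) ^ (-((k : ℝ) - 1) / 2) / (1 + r * wt y)))) ^ 2
          = (σ * C1) ^ 2 * r ^ (1 - (k : ℝ)) * (((wt y ^ (k - 2)) ^ 2 * wt y ^ (1 - (k : ℝ))) *
            ((1 + r * wt y) ^ 2)⁻¹) := by
            rw [mul_pow, mul_pow, mul_pow, div_pow, e1]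
            ring
        _ ≤ (σ * C1) ^ 2 * r ^ (1 - (k : ℝ)) *
            ((1 - ‖y‖ ^ 2) ^ (-(1 / 2) : ℝ) * (1 + (r * wt y) ^ 2)⁻¹) := by
            rw [e2]
            have h6 := pow_wt k hk hy
            have h7 : 0 ≤ (1 - ‖y‖ ^ 2) ^ (-(1 / 2) : ℝ) :=
              (Real.rpow_nonneg hw.le _).trans h6
            gcongr
    rw [enorm_sq, ← ENNReal.ofReal_mul, ← ENNReal.ofReal_mul (by positivity)]
    · apply ENNReal.ofReal_le_ofReal
      refine hsq.trans (le_of_eq ?_)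
      rfl
    · have h6 := pow_wt k hk hy
      exact (Real.rpow_nonneg hw.le _).trans h6
  calc ∫⁻ y in Metric.ball (0 : E m) 1, ‖EA k c F r y‖ₑ ^ (2 : ℝ)
      ≤ ∫⁻ y in Metric.ball (0 : E m) 1, ENNReal.ofReal ((σ * C1) ^ 2 * r ^ (1 - (k : ℝ))) *
      (ENNReal.ofReal ((1 - ‖y‖ ^ 2) ^ (-(1 / 2) : ℝ)) *
      ENNReal.ofReal ((1 + (r * Real.sqrt (1 - ‖y‖ ^ 2)) ^ 2)⁻¹)) :=
        setLIntegral_mono' measurableSet_ball hpt
    _ = ENNReal.ofReal ((σ * C1) ^ 2 * r ^ (1 - (k : ℝ))) *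
      ∫⁻ y in Metric.ball (0 : E m) 1, (ENNReal.ofReal ((1 - ‖y‖ ^ 2) ^ (-(1 / 2) : ℝ)) *
      ENNReal.ofReal ((1 + (r * Real.sqrt (1 - ‖y‖ ^ 2)) ^ 2)⁻¹)) := by
        rw [lintegral_const_mul' _ _ ENNReal.ofReal_ne_top]
    _ ≤ ENNReal.ofReal ((σ * C1) ^ 2 * r ^ (1 - (k : ℝ))) * ENNReal.ofReal (C2 / r) := by
        gcongr
        exact h2 r hr
    _ = _ := by
        rw [← ENNReal.ofReal_mul (by positivity)]
        congr 1
        have e4 : r ^ (1 - (k : ℝ)) / r = r ^ (-(k : ℝ)) := by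
          rw [div_eq_mul_inv, ← Real.rpow_neg_one, ← Real.rpow_add hr]
          congr 1
          ring
        rw [← e4]
        ring

end Pool.Agent.TH335.RF
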