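import Mathlib
import Pool.Agent.H72.Lib.S8.TH335.RF.P8
import Pool.Agent.H72.Lib.S8.H789R2.FR.Weak
set_option autoImplicit false

/-! Restriction for `S^m` gives the hypothesis; Stein-Tomas. -/

namespace Pool.Agent.TH335.RF

open MeasureTheory Set Complex
open scoped ENNReal RealInnerProductSpace
open Pool.Agent.H789R2.FR (E sg T sg_finite)
open Pool.Agent.H438R2.BR (Phi J J_mp Q)
open Pool.Agent.H438R2.BR.T10 (e0 e0_norm)
open Pool.Agent.H438R2.PD (P1 P2 P1_meas P2_meas T_meas' T_le)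

/-- restriction estimate `L^∞ → L^P` for the sphere in `ℝ^n` -/
def RT (n : ℕ) (P : ℝ) : Prop := ∃ C : ℝ, 0 < C ∧ ∀ g : E n → ℂ, Measurable g →
  (∀ x, ‖g x‖ ≤ 1) → ∫⁻ z, ‖T g z‖ₑ ^ P ≤ ENNReal.ofReal C

theorem line_mp : MeasurePreserving (fun r : ℝ => r • e0) (volume : Measure ℝ)
    (volume : Measure (E 1)) := by
  have h1 := PiLp.volume_preserving_toLp (Fin 1)
  have h2 := (volume_preserving_funUnique (Fin 1) ℝ).symm
  have h3 := h1.comp h2
  have e : (fun r : ℝ => r • e0) = (WithLp.toLp 2 : (Fin 1 → ℝ) → E 1) ∘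
      (MeasurableEquiv.funUnique (Fin 1) ℝ).symm := by
    funext r
    ext i
    fin_cases i
    simp [e0, MeasurableEquiv.funUnique]
  rw [e]
  exact h3

theorem hyp_of_rest {m : ℕ} (k : ℕ) (hk : 2 ≤ k) (hm : 1 ≤ m) (P : ℝ) (h : RT (1 + m) P) :
    Hyp k m P := by
  obtain ⟨C, hC, hT⟩ := h
  intro δ hδ
  refine ⟨C, hC, fun F hFm hF s hs => ?_⟩
  have hgm := gu_meas k F hFm
  have hTm : Measurable fun z : E (1 + m) => ‖T (gu k F) z‖ₑ ^ P := (T_meas' _ hgm).enorm.pow_const P
  have hJm : Measurable fun p : E 1 × E m => J p.1 p.2 := (J_mp 1 m).measurable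
  have hGm : Measurable fun r : ℝ => ∫⁻ y : E m, ‖Gf k F r y‖ₑ ^ P :=
    ((Gf_meas k F hFm).enorm.pow_const P).lintegral_prod_right'
  have e1 : ∫⁻ z, ‖T (gu k F) z‖ₑ ^ P = ∫⁻ r : ℝ, ∫⁻ y : E m, ‖Gf k F r y‖ₑ ^ P := by
    rw [← (J_mp 1 m).lintegral_comp hTm, lintegral_prod]
    · have hm2 : Measurable fun x : E 1 => ∫⁻ y : E m, ‖T (gu k F) (J x y)‖ₑ ^ P :=
        (hTm.comp hJm).lintegral_prod_right'
      rw [← line_mp.lintegral_comp hm2]
      refine lintegral_congr fun r => lintegral_congr fun y => ?_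
      rw [T_gu k hm F hFm r y]
    · exact (hTm.comp hJm).aemeasurable
  calc ∫⁻ r in Ioi (1 : ℝ), ENNReal.ofReal (r ^ (-δ)) * ∫⁻ y : E m, ‖Gf k F (s * r) y‖ₑ ^ P
      ≤ ∫⁻ r in Ioi (1 : ℝ), ∫⁻ y : E m, ‖Gf k F (s * r) y‖ₑ ^ P := by
        refine setLIntegral_mono' measurableSet_Ioi fun r hr => ?_
        have hr' : (1 : ℝ) < r := hr
        calc ENNReal.ofReal (r ^ (-δ)) * ∫⁻ y : E m, ‖Gf k F (s * r) y‖ₑ ^ P
            ≤ 1 * ∫⁻ y : E m, ‖Gf k F (s * r) y‖ₑ ^ P := by
              gcongr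
              rw [ENNReal.ofReal_le_one]
              exact Real.rpow_le_one_of_one_le_of_nonpos hr'.le (by linarith)
          _ = _ := one_mul _
    _ ≤ ∫⁻ r : ℝ, ∫⁻ y : E m, ‖Gf k F (s * r) y‖ₑ ^ P := setLIntegral_le_lintegral _ _
    _ = ∫⁻ r : ℝ, ∫⁻ y : E m, ‖Gf k F r y‖ₑ ^ P := by
        rcases hs with rfl | rfl
        · simp
        · simp only [neg_one_mul]
          exact (Measure.measurePreserving_neg (volume : Measure ℝ)).lintegral_comp hGm
    _ ≤ _ := by
        rw [← e1]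
        exact hT (gu k F) hgm (gu_le k hk F hF)

/-- Stein-Tomas -/
theorem stein_tomas (n : ℕ) (hn : 2 ≤ n) (P : ℝ) (hP : 2 * ((n : ℝ) + 1) / ((n : ℝ) - 1) < P) :
    RT n P := by
  obtain ⟨C, hC, hw⟩ := Pool.Agent.H789R2.FR.weak n hn
  have hsg : IsFiniteMeasure (sg n) := sg_finite n
  have hn' : (2 : ℝ) ≤ n := by exact_mod_cast hn
  have hn1 : 0 < (n : ℝ) - 1 := by linarith
  set q : ℝ := ((n : ℝ) + 1) / ((n : ℝ) - 1) with hq
  have hq1 : 1 ≤ q := by rw [hq, le_div_iff₀ hn1]; linarith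
  have hPq : 2 * q < P := by rw [hq, ← mul_div_assoc]; exact hP
  have hP0 : 0 < P := by linarith
  set S : ℝ := (sg n).real univ with hS
  have hS0 : 0 < S := Pool.Agent.H438R2.BR.T7.sg_pos (by omega)
  refine ⟨P * (C * S ^ q * ((S + 1) ^ (P - 2 * q - 1 + 1) / (P - 2 * q - 1 + 1))),
    ?_, fun g hg hb => ?_⟩
  · have hpos : 0 < P - 2 * q - 1 + 1 := by linarith
    positivity
  have hTm : Measurable (T g) := T_meas' g hg
  have hTb : ∀ x, ‖T g x‖ ≤ S := fun x => by
    have := T_le g 1 hb x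
    rwa [one_mul] at this
  have hH : ∫ w, ‖g w‖ ^ 2 ∂(sg n) ≤ S := by
    have h1 : ∫ w, ‖g w‖ ^ 2 ∂(sg n) ≤ ∫ _w, (1 : ℝ) ∂(sg n) := by
      apply integral_mono_of_nonneg (Filter.Eventually.of_forall fun w => by positivity)
        (integrable_const _) (Filter.Eventually.of_forall fun w => ?_)
      exact pow_le_one₀ (norm_nonneg _) (hb w)
    simpa [hS] using h1
  have hH0 : 0 ≤ ∫ w, ‖g w‖ ^ 2 ∂(sg n) := integral_nonneg fun w => by positivity
  -- level sets
  have hlev : ∀ t : ℝ, 0 < t → volume {x | t < ‖T g x‖} ≤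
      ENNReal.ofReal (C * S ^ q * t ^ (-(2 * q))) := by
    intro t ht
    have hms : MeasurableSet {x | t < ‖T g x‖} := measurableSet_lt measurable_const hTm.norm
    have hun : {x | t < ‖T g x‖} = ⋃ N : ℕ, {x | t < ‖T g x‖} ∩ Metric.closedBall (0 : E n) N := by
      rw [← inter_iUnion, Metric.iUnion_closedBall_nat, inter_univ]
    rw [hun, Monotone.measure_iUnion]
    · apply iSup_le
      intro N
      have hfin : volume ({x | t < ‖T g x‖} ∩ Metric.closedBall (0 : E n) N) ≠ ⊤ :=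
        ((measure_mono inter_subset_right).trans_lt measure_closedBall_lt_top).ne
      have h1 := hw g hg ⟨1, hb⟩ t ht ({x | t < ‖T g x‖} ∩ Metric.closedBall (0 : E n) N)
        (hms.inter measurableSet_closedBall)
        (Metric.isBounded_closedBall.subset inter_subset_right) (fun x hx => le_of_lt hx.1)
      rw [← ENNReal.ofReal_toReal hfin]
      apply ENNReal.ofReal_le_ofReal
      change volume.real _ ≤ _
      refine h1.trans ?_
      have h2 : (∫ w, ‖g w‖ ^ 2 ∂(sg n)) / t ^ 2 ≤ S / t ^ 2 := by gcongr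
      have h3 : ((∫ w, ‖g w‖ ^ 2 ∂(sg n)) / t ^ 2) ^ (((n : ℝ) + 1) / ((n : ℝ) - 1)) ≤
          (S / t ^ 2) ^ q := Real.rpow_le_rpow (by positivity) h2 (by linarith)
      have h4 : (S / t ^ 2) ^ q = S ^ q * t ^ (-(2 * q)) := by
        rw [Real.div_rpow hS0.le (by positivity), ← Real.rpow_natCast t 2, ← Real.rpow_mul ht.le,
          Real.rpow_neg ht.le, div_eq_mul_inv]
        norm_num
      rw [mul_assoc, ← h4]
      gcongr
    · intro a b hab
      apply inter_subset_inter_right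
      apply Metric.closedBall_subset_closedBall
      exact_mod_cast hab
  have hlayer := lintegral_rpow_eq_lintegral_meas_lt_mul (volume : Measure (E n))
    (f := fun x => ‖T g x‖) (Filter.Eventually.of_forall fun x => norm_nonneg _)
    hTm.norm.aemeasurable hP0
  have e1 : ∀ x, ‖T g x‖ₑ ^ P = ENNReal.ofReal (‖T g x‖ ^ P) := by
    intro x
    rw [← ofReal_norm, ENNReal.ofReal_rpow_of_nonneg (norm_nonneg _) hP0.le]
  simp only [e1]
  rw [hlayer]
  have h5 : ∫⁻ t in Ioi (0 : ℝ), volume {a | t < ‖T g a‖} * ENNReal.ofReal (t ^ (P - 1)) ≤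
      ∫⁻ t in Ioo (0 : ℝ) (S + 1), ENNReal.ofReal (C * S ^ q) *
        ENNReal.ofReal (t ^ (P - 2 * q - 1)) := by
    rw [← lintegral_indicator measurableSet_Ioi, ← lintegral_indicator measurableSet_Ioo]
    apply lintegral_mono
    intro t
    by_cases h0 : 0 < t
    · have m0 : t ∈ Ioi (0 : ℝ) := h0
      by_cases h1 : t < S + 1
      · have m1 : t ∈ Ioo (0 : ℝ) (S + 1) := ⟨h0, h1⟩
        simp only [indicator_of_mem m0, indicator_of_mem m1]
        calc volume {a | t < ‖T g a‖} * ENNReal.ofReal (t ^ (P - 1))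
            ≤ ENNReal.ofReal (C * S ^ q * t ^ (-(2 * q))) * ENNReal.ofReal (t ^ (P - 1)) := by
              gcongr
              exact hlev t h0
          _ = _ := by
              rw [← ENNReal.ofReal_mul (by positivity), ← ENNReal.ofReal_mul (by positivity)]
              congr 1
              rw [mul_assoc, ← Real.rpow_add h0]
              congr 2
              ring
      · have m1 : t ∉ Ioo (0 : ℝ) (S + 1) := fun h => h1 h.2
        simp only [indicator_of_mem m0, indicator_of_notMem m1]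
        have : {a | t < ‖T g a‖} = ∅ := by
          ext a
          simp only [mem_ofPred_eq, mem_empty_iff_false, iff_false, not_lt]
          linarith [hTb a]
        rw [this, measure_empty, zero_mul]
    · have m0 : t ∉ Ioi (0 : ℝ) := h0
      simp only [indicator_of_notMem m0]
      exact zero_le
  calc ENNReal.ofReal P * ∫⁻ t in Ioi (0 : ℝ), volume {a | t < ‖T g a‖} *
        ENNReal.ofReal (t ^ (P - 1))
      ≤ ENNReal.ofReal P * (ENNReal.ofReal (C * S ^ q) *
        ENNReal.ofReal ((S + 1) ^ (P - 2 * q - 1 + 1) / (P - 2 * q - 1 + 1))) := by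
        gcongr
        refine h5.trans ?_
        rw [lintegral_const_mul' _ _ ENNReal.ofReal_ne_top,
          Pool.Agent.H438R2.BR.T7.lint_pow (S + 1) (P - 2 * q - 1) (by linarith) (by linarith)]
    _ = _ := by
        rw [← ENNReal.ofReal_mul (by positivity), ← ENNReal.ofReal_mul hP0.le]

end Pool.Agent.TH335.RF
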