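import Mathlib
import Pool.Agent.H72.Lib.S8.TH335.RF.Q1
set_option autoImplicit false

/-! One rough coordinate: the hypothesis with `P = 4`. -/

namespace Pool.Agent.TH335.RF

open MeasureTheory Set Complex
open scoped ENNReal RealInnerProductSpace
open Pool.Agent.H789R2.FR (E sg T sg_finite sc band Ex)
open Pool.Agent.H789R2.FR.E4w (Ex_meas)
open Pool.Agent.H438R2.BR.T10 (e0 e0_norm)

theorem geo (A ρ : ℝ) (hA : 0 ≤ A) (hρ0 : 0 ≤ ρ) (hρ : ρ < 1) :
    ∑' j : ℕ, ENNReal.ofReal (A * ρ ^ j) = ENNReal.ofReal (A / (1 - ρ)) := by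
  rw [← ENNReal.ofReal_tsum_of_nonneg (fun j => by positivity)
    ((summable_geometric_of_lt_one hρ0 hρ).mul_left A), tsum_mul_left,
    tsum_geometric_of_lt_one hρ0 hρ, div_eq_mul_inv]

theorem local4 : ∃ C : ℝ, 0 < C ∧ ∀ (k : ℕ), 2 ≤ k → ∀ (F : E 1 → ℂ), Measurable F →
    (∀ y, ‖F y‖ ≤ 1) → ∀ (Y : ℝ), 1 ≤ Y →
    ∫⁻ y in Icc (-Y) Y, ∫⁻ z : ℝ, ‖Ex (bb k F) y z‖ₑ ^ (4 : ℝ) ≤
      ENNReal.ofReal (C * (1 + Real.log Y)) := by
  obtain ⟨C, hC, h⟩ := piece_bound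
  set ρ : ℝ := (1 / 2 : ℝ) ^ (3 / 4 : ℝ) with hρ
  have hρ0 : 0 < ρ := by positivity
  have hρ1 : ρ < 1 := Real.rpow_lt_one (by norm_num) (by norm_num) (by norm_num)
  have h1ρ : 0 < 1 - ρ := by linarith
  refine ⟨C / (1 - ρ) ^ 4, by positivity, fun k hk F hFm hF Y hY => ?_⟩
  have hlogY : 0 ≤ Real.log Y := Real.log_nonneg hY
  set A : ℝ := (C * (1 + Real.log Y)) ^ (1 / 4 : ℝ) with hA
  have hA0 : 0 ≤ A := by positivity
  have hA4 : A ^ (4 : ℝ) = C * (1 + Real.log Y) := by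
    rw [hA, ← Real.rpow_mul (by positivity)]
    norm_num
  set μ : Measure (ℝ × ℝ) := (volume.restrict (Icc (-Y) Y)).prod volume with hμ
  set u : ℕ → ℝ × ℝ → ℝ≥0∞ := fun j p => ‖Ex (bj k F j) p.1 p.2‖ₑ with hu
  have hum : ∀ j, Measurable (u j) := fun j => (Ex_meas _ (bj_meas k F hFm j)).enorm
  have hu4 : ∀ j, (∫⁻ p, u j p ^ (4 : ℝ) ∂μ) ^ (1 / (4 : ℝ)) ≤ ENNReal.ofReal (A * ρ ^ j) := by
    intro j
    have e1 : ∫⁻ p, u j p ^ (4 : ℝ) ∂μ =
        ∫⁻ y in Icc (-Y) Y, ∫⁻ z : ℝ, ‖Ex (bj k F j) y z‖ₑ ^ (4 : ℝ) := by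
      rw [hμ, lintegral_prod _ ((hum j).pow_const _).aemeasurable]
    rw [e1]
    refine (ENNReal.rpow_le_rpow (h k hk F hFm hF j Y hY) (by norm_num)).trans (le_of_eq ?_)
    rw [ENNReal.ofReal_rpow_of_nonneg (by positivity) (by norm_num)]
    congr 1
    have e2 : C * ((1 / 2 : ℝ) ^ j) ^ 3 * (1 + Real.log Y) =
        (C * (1 + Real.log Y)) * ((1 / 2 : ℝ) ^ j) ^ 3 := by ring
    rw [e2, Real.mul_rpow (by positivity) (by positivity), hA]
    congr 1
    rw [hρ, ← pow_mul, ← Real.rpow_natCast, ← Real.rpow_mul (by positivity),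
      ← Real.rpow_natCast ((1 / 2 : ℝ) ^ (3 / 4 : ℝ)) j, ← Real.rpow_mul (by positivity)]
    congr 1
    push_cast
    ring
  have hbm : Measurable fun p : ℝ × ℝ => ‖Ex (bb k F) p.1 p.2‖ₑ ^ (4 : ℝ) :=
    (Ex_meas _ (bb_meas k F hFm)).enorm.pow_const _
  calc ∫⁻ y in Icc (-Y) Y, ∫⁻ z : ℝ, ‖Ex (bb k F) y z‖ₑ ^ (4 : ℝ)
      = ∫⁻ p, ‖Ex (bb k F) p.1 p.2‖ₑ ^ (4 : ℝ) ∂μ := by
        rw [hμ, lintegral_prod _ hbm.aemeasurable]
    _ ≤ ∫⁻ p, (∑' j, u j p) ^ (4 : ℝ) ∂μ := by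
        apply lintegral_mono
        intro p
        exact ENNReal.rpow_le_rpow (Ex_le k hk F hFm hF p.1 p.2) (by norm_num)
    _ ≤ (∑' j, (∫⁻ p, (u j p) ^ (4 : ℝ) ∂μ) ^ (1 / (4 : ℝ))) ^ (4 : ℝ) :=
        mink μ 4 (by norm_num) u hum
    _ ≤ (∑' j, ENNReal.ofReal (A * ρ ^ j)) ^ (4 : ℝ) :=
        ENNReal.rpow_le_rpow (ENNReal.tsum_le_tsum hu4) (by norm_num)
    _ = _ := by
        rw [geo A ρ hA0 hρ0.le hρ1, ENNReal.ofReal_rpow_of_nonneg (by positivity) (by norm_num),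
          Real.div_rpow hA0 h1ρ.le, hA4]
        congr 1
        rw [show ((1 - ρ) ^ (4 : ℝ)) = (1 - ρ) ^ 4 by
          rw [← Real.rpow_natCast (1 - ρ) 4]; norm_num]
        ring

theorem hyp_one (k : ℕ) (hk : 2 ≤ k) : Hyp k 1 4 := by
  obtain ⟨C, hC, h⟩ := local4
  intro δ hδ
  set κ : ℝ := (2 : ℝ) ^ (-(δ / 2)) with hκ
  have hκ0 : 0 < κ := by positivity
  have hκ1 : κ < 1 := Real.rpow_lt_one_of_one_lt_of_neg (by norm_num) (by linarith)
  have h1κ : 0 < 1 - κ := by linarith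
  set K : ℝ := C * (1 + 2 / δ) * 2 ^ (δ / 2) with hK
  have hK0 : 0 < K := by positivity
  refine ⟨K / (1 - κ), by positivity, fun F hFm hF s hs => ?_⟩
  have hbm : Measurable (Function.uncurry (Ex (bb k F))) := Ex_meas _ (bb_meas k F hFm)
  set H : ℝ → ℝ≥0∞ := fun y => ∫⁻ z : ℝ, ‖Ex (bb k F) y z‖ₑ ^ (4 : ℝ) with hH
  have hHm : Measurable H := (hbm.enorm.pow_const _).lintegral_prod_right'
  have e1 : ∀ r : ℝ, ∫⁻ y : E 1, ‖Gf k F r y‖ₑ ^ (4 : ℝ) = H r := by
    intro r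
    have hm : Measurable fun y : E 1 => ‖Gf k F r y‖ₑ ^ (4 : ℝ) :=
      ((Gf_meas k F hFm).comp measurable_prodMk_left).enorm.pow_const _
    rw [← line_mp.lintegral_comp hm]
    refine lintegral_congr fun z => ?_
    rw [Gf_Ex k F hFm r z]
  simp only [e1]
  have hcov : Ioi (1 : ℝ) ⊆ ⋃ i : ℕ, Ioc ((2 : ℝ) ^ i) (2 ^ (i + 1)) := by
    intro r hr
    have hr' : (1 : ℝ) < r := hr
    obtain ⟨i, hi1, hi2⟩ := exists_nat_pow_near hr'.le (by norm_num : (1 : ℝ) < 2)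
    rcases hi1.eq_or_lt with h0 | h0
    · -- r = 2^i, i ≥ 1
      have hi : i ≠ 0 := by
        rintro rfl
        rw [pow_zero] at h0
        linarith
      obtain ⟨l, rfl⟩ := Nat.exists_eq_succ_of_ne_zero hi
      refine mem_iUnion.2 ⟨l, ?_, ?_⟩
      · rw [← h0, Nat.succ_eq_add_one]
        exact pow_lt_pow_right₀ (by norm_num) (by omega)
      · rw [← h0]
    · exact mem_iUnion.2 ⟨i, h0, hi2.le⟩
  calc ∫⁻ r in Ioi (1 : ℝ), ENNReal.ofReal (r ^ (-δ)) * H (s * r)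
      ≤ ∫⁻ r in ⋃ i : ℕ, Ioc ((2 : ℝ) ^ i) (2 ^ (i + 1)), ENNReal.ofReal (r ^ (-δ)) * H (s * r) :=
        lintegral_mono_set hcov
    _ ≤ ∑' i : ℕ, ∫⁻ r in Ioc ((2 : ℝ) ^ i) (2 ^ (i + 1)), ENNReal.ofReal (r ^ (-δ)) * H (s * r) :=
        lintegral_iUnion_le _ _
    _ ≤ ∑' i : ℕ, ENNReal.ofReal (K * κ ^ i) := by
        apply ENNReal.tsum_le_tsum
        intro i
        set Y : ℝ := 2 ^ (i + 1) with hY
        have hY1 : 1 ≤ Y := one_le_pow₀ (by norm_num)
        have hloc : ∫⁻ r in Ioc ((2 : ℝ) ^ i) Y, H (s * r) ≤ ENNReal.ofReal (C * (1 + Real.log Y)) := by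
          have hsub : Ioc ((2 : ℝ) ^ i) Y ⊆ Icc (-Y) Y := by
            intro r hr
            have : (0 : ℝ) < 2 ^ i := by positivity
            exact ⟨by linarith [hr.1], hr.2⟩
          refine (lintegral_mono_set hsub).trans ?_
          have hsym : ∫⁻ r in Icc (-Y) Y, H (s * r) = ∫⁻ r in Icc (-Y) Y, H r := by
            rcases hs with rfl | rfl
            · simp
            · simp only [neg_one_mul]
              have h3 := (Measure.measurePreserving_neg (volume : Measure ℝ)).setLIntegral_comp_preimage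
                (measurableSet_Icc (a := -Y) (b := Y)) hHm
              have h4 : (fun x : ℝ => -x) ⁻¹' Icc (-Y) Y = Icc (-Y) Y := by
                ext x
                simp only [mem_preimage, mem_Icc]
                constructor
                · rintro ⟨h5, h6⟩; exact ⟨by linarith, by linarith⟩
                · rintro ⟨h5, h6⟩; exact ⟨by linarith, by linarith⟩
              rw [← h3]
              congr 1
              congr 1
              exact h4.symm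
          rw [hsym]
          exact h k hk F hFm hF Y hY1
        calc ∫⁻ r in Ioc ((2 : ℝ) ^ i) Y, ENNReal.ofReal (r ^ (-δ)) * H (s * r)
            ≤ ∫⁻ r in Ioc ((2 : ℝ) ^ i) Y, ENNReal.ofReal (((2 : ℝ) ^ i) ^ (-δ)) * H (s * r) := by
              refine setLIntegral_mono' measurableSet_Ioc fun r hr => ?_
              have h10 : r ^ (-δ) ≤ ((2 : ℝ) ^ i) ^ (-δ) :=
                Real.rpow_le_rpow_of_nonpos (by positivity) hr.1.le (by linarith)
              exact mul_le_mul_left (ENNReal.ofReal_le_ofReal h10) _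
          _ ≤ ENNReal.ofReal (((2 : ℝ) ^ i) ^ (-δ)) * ENNReal.ofReal (C * (1 + Real.log Y)) := by
              rw [lintegral_const_mul' _ _ ENNReal.ofReal_ne_top]
              gcongr
          _ ≤ _ := by
              rw [← ENNReal.ofReal_mul (by positivity)]
              apply ENNReal.ofReal_le_ofReal
              have h5 : Real.log Y ≤ Y ^ (δ / 2) / (δ / 2) :=
                Real.log_le_rpow_div (by positivity) (by linarith)
              have h6 : 1 ≤ Y ^ (δ / 2) := Real.one_le_rpow hY1 (by linarith)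
              have h7 : 1 + Real.log Y ≤ (1 + 2 / δ) * Y ^ (δ / 2) := by
                have h8 : Y ^ (δ / 2) / (δ / 2) = 2 / δ * Y ^ (δ / 2) := by field_simp
                rw [h8] at h5
                linarith
              have h9 : ((2 : ℝ) ^ i) ^ (-δ) * Y ^ (δ / 2) = 2 ^ (δ / 2) * κ ^ i := by
                rw [hY, hκ, ← Real.rpow_natCast 2 i, ← Real.rpow_natCast 2 (i + 1),
                  ← Real.rpow_mul (by norm_num), ← Real.rpow_mul (by norm_num),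
                  ← Real.rpow_natCast ((2 : ℝ) ^ (-(δ / 2))) i, ← Real.rpow_mul (by norm_num),
                  ← Real.rpow_add (by norm_num), ← Real.rpow_add (by norm_num)]
                congr 1
                push_cast
                ring
              calc ((2 : ℝ) ^ i) ^ (-δ) * (C * (1 + Real.log Y))
                  ≤ ((2 : ℝ) ^ i) ^ (-δ) * (C * ((1 + 2 / δ) * Y ^ (δ / 2))) := by gcongr
                _ = C * (1 + 2 / δ) * (((2 : ℝ) ^ i) ^ (-δ) * Y ^ (δ / 2)) := by ring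
                _ = _ := by rw [h9, hK]; ring
    _ = _ := geo K κ hK0.le hκ0.le hκ1

end Pool.Agent.TH335.RF
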