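import Mathlib
import Pool.Agent.H72.Lib.S8.TH335.RF.Q2
set_option autoImplicit false

/-! All exponents; change of coordinates. -/

namespace Pool.Agent.TH335.RF

open MeasureTheory Set Complex Metric
open scoped ENNReal RealInnerProductSpace
open Pool.Agent.H789R2.FR (E sg T sg_finite)
open Pool.Agent.H438R2.BR (Phi J J_mp J_inner)
open Pool.Agent.H438R2.PD (P1 P2 P1_meas P2_meas T_meas' T_le)

/-- all exponents -/
theorem T_bound {m : ℕ} (k : ℕ) (hk : 2 ≤ k) (hm : 1 ≤ m) (P q : ℝ) (hP : 2 < P)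
    (hyp : Hyp k m P) (h : 1 < (q - 2) * (((k : ℝ) - 1) / 2 + 1 / (P - 2))) :
    ∃ C : ℝ, 0 < C ∧ ∀ (F : E m → ℂ), Measurable F → (∀ y, ‖F y‖ ≤ 1) →
    ∫⁻ z, ‖T (fun z : E (k + m) => F (P2 k m z)) z‖ₑ ^ q ≤ ENNReal.ofReal C := by
  have hk' : (2 : ℝ) ≤ k := by exact_mod_cast hk
  have hP2 : 0 < P - 2 := by linarith
  set D : ℝ := ((k : ℝ) - 1) / 2 + 1 / (P - 2) with hD
  have hD0 : 0 < D := by
    have : 0 < 1 / (P - 2) := by positivity
    have : 0 < ((k : ℝ) - 1) / 2 := by linarith
    linarith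
  have hq2 : 1 / D < q - 2 := by
    rw [div_lt_iff₀ hD0]; exact h
  have hDP : 1 / D < P - 2 := by
    rw [div_lt_iff₀ hD0, hD, mul_add, mul_one_div_cancel hP2.ne']
    have : 0 < (P - 2) * (((k : ℝ) - 1) / 2) := by
      apply mul_pos hP2
      linarith
    linarith
  obtain ⟨u, hu1, hu2⟩ := exists_between (lt_min hq2 hDP)
  have hu0 : 0 < u := lt_trans (by positivity) hu1
  have huq : u < q - 2 := lt_of_lt_of_le hu2 (min_le_left _ _)
  have huP : u < P - 2 := lt_of_lt_of_le hu2 (min_le_right _ _)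
  obtain ⟨C, hC, hmain⟩ := main (m := m) k hk hm P (2 + u) (by linarith) (by linarith) hyp (by
    rw [← hD, add_sub_cancel_left]
    rwa [div_lt_iff₀ hD0] at hu1)
  set S : ℝ := (sg (k + m)).real univ with hS
  have hS0 : 0 < S := Pool.Agent.H438R2.BR.T7.sg_pos (by omega)
  refine ⟨S ^ (q - (2 + u)) * C, by positivity, fun F hFm hF => ?_⟩
  have hb : ∀ z, ‖T (fun z : E (k + m) => F (P2 k m z)) z‖ₑ ≤ ENNReal.ofReal S := by
    intro z
    rw [← ofReal_norm]
    apply ENNReal.ofReal_le_ofReal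
    have h1 := T_le (fun z : E (k + m) => F (P2 k m z)) 1 (fun w => hF _) z
    rwa [one_mul] at h1
  calc ∫⁻ z, ‖T (fun z : E (k + m) => F (P2 k m z)) z‖ₑ ^ q
      ≤ ∫⁻ z, ENNReal.ofReal S ^ (q - (2 + u)) *
        ‖T (fun z : E (k + m) => F (P2 k m z)) z‖ₑ ^ (2 + u) := by
        apply lintegral_mono
        intro z
        have h1 : ‖T (fun z : E (k + m) => F (P2 k m z)) z‖ₑ ^ q =
            ‖T (fun z : E (k + m) => F (P2 k m z)) z‖ₑ ^ (q - (2 + u)) *
            ‖T (fun z : E (k + m) => F (P2 k m z)) z‖ₑ ^ (2 + u) := by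
          rw [← ENNReal.rpow_add_of_nonneg _ _ (by linarith) (by linarith)]
          congr 1
          ring
        simp only
        rw [h1]
        exact mul_le_mul_left (ENNReal.rpow_le_rpow (hb z) (by linarith)) _
    _ = ENNReal.ofReal S ^ (q - (2 + u)) *
        ∫⁻ z, ‖T (fun z : E (k + m) => F (P2 k m z)) z‖ₑ ^ (2 + u) := by
        rw [lintegral_const_mul']
        exact ENNReal.rpow_ne_top_of_nonneg (by linarith) ENNReal.ofReal_ne_top
    _ ≤ ENNReal.ofReal S ^ (q - (2 + u)) * ENNReal.ofReal C := by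
        gcongr
        exact hmain F hFm hF
    _ = _ := by
        rw [ENNReal.ofReal_rpow_of_nonneg hS0.le (by linarith), ← ENNReal.ofReal_mul (by positivity)]

/-- coordinates adapted to a subspace -/
theorem coords (k m : ℕ) (V : Submodule ℝ (E (k + m))) (hV : Module.finrank ℝ V = m) :
    ∃ (Λ : E (k + m) ≃ₗᵢ[ℝ] E (k + m)) (ι : E m → E (k + m)), Measurable ι ∧
      ∀ x, V.starProjection x = ι (P2 k m (Λ x)) := by
  have hVo : Module.finrank ℝ Vᗮ = k := by
    have h1 := V.finrank_add_finrank_orthogonal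
    rw [hV, finrank_euclideanSpace_fin] at h1
    omega
  set b : OrthonormalBasis (Fin m) ℝ V := (stdOrthonormalBasis ℝ V).reindex (finCongr hV) with hb
  set c : OrthonormalBasis (Fin k) ℝ Vᗮ := (stdOrthonormalBasis ℝ Vᗮ).reindex (finCongr hVo)
    with hc
  let L : E (k + m) →ₗ[ℝ] E (k + m) :=
    { toFun := fun x => J (c.repr (Vᗮ.orthogonalProjectionOnto x))
        (b.repr (V.orthogonalProjectionOnto x))
      map_add' := by
        intro x y
        ext i
        simp only [map_add]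
        refine Fin.addCases (fun j => ?_) (fun j => ?_) i
        · simp [J, Fin.append_left]
        · simp [J, Fin.append_right]
      map_smul' := by
        intro a x
        ext i
        simp only [map_smul]
        refine Fin.addCases (fun j => ?_) (fun j => ?_) i
        · simp [J, Fin.append_left]
        · simp [J, Fin.append_right] }
  have hnorm : ∀ x, ‖L x‖ = ‖x‖ := by
    intro x
    have h1 : ‖L x‖ ^ 2 = ‖x‖ ^ 2 := by
      change ‖J (c.repr (Vᗮ.orthogonalProjectionOnto x))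
        (b.repr (V.orthogonalProjectionOnto x))‖ ^ 2 = ‖x‖ ^ 2
      rw [← real_inner_self_eq_norm_sq, J_inner, real_inner_self_eq_norm_sq,
        real_inner_self_eq_norm_sq, LinearIsometryEquiv.norm_map, LinearIsometryEquiv.norm_map,
        Submodule.norm_sq_eq_add_norm_sq_projection x V]
      ring
    exact (sq_eq_sq₀ (norm_nonneg _) (norm_nonneg _)).1 h1
  let Li : E (k + m) →ₗᵢ[ℝ] E (k + m) := ⟨L, hnorm⟩
  refine ⟨Li.toLinearIsometryEquiv rfl, fun y => ((b.repr.symm y : V) : E (k + m)), ?_, ?_⟩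
  · have h1 : Continuous fun y : E m => ((b.repr.symm y : V) : E (k + m)) :=
      continuous_subtype_val.comp b.repr.symm.continuous
    exact h1.measurable
  · intro x
    have h2 : P2 k m (Li.toLinearIsometryEquiv rfl x) = b.repr (V.orthogonalProjectionOnto x) := by
      change P2 k m (J (c.repr (Vᗮ.orthogonalProjectionOnto x))
        (b.repr (V.orthogonalProjectionOnto x))) = _
      exact Pool.Agent.H438R2.PD.P2_J _ _
    rw [h2]
    simp only [LinearIsometryEquiv.symm_apply_apply]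
    rfl

end Pool.Agent.TH335.RF
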